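import Mathlib

/-!
# MP_814c9d_an: `κ`-octahedral Banach spaces without copies of `ℓ_1(κ⁺)`, even of `ℓ_1(ω_1)`

For every infinite cardinal `κ` the `ℓ_1`-sum over `n ∈ ℕ` of the spaces `ℓ_{p_n}(κ⁺)`,
`p_n = 1 + 1 / (n + 1)`, is `κ`-octahedral, but it has no subspace isomorphic to `ℓ_1(Γ)` for
uncountable `Γ`, in particular none isomorphic to `ℓ_1(κ⁺)`.

* If `Y` has density at most `κ`, then some coordinate `α < κ⁺` vanishes on all of `Y`, and the unit
  vector `e_α` of the `n`-th summand, `n` large, is almost `ℓ_1`-orthogonal to `Y`.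
* If `ℓ_1(Γ)` embeds, then for an uncountable set of `γ` the images of the unit vectors `e_γ` have
  uniformly small tails after the same `N`, so that finitely many of them are equivalent to the basis
  of `ℓ_1^n` already in the sum of the first `N` spaces, for all `n`. This is impossible by the two
  point inequality `‖x + y‖^p + ‖x - y‖^p ≤ 2 (‖x‖^p + ‖y‖^p)` in `ℓ_p`, `1 ≤ p ≤ 2`.
-/

open Cardinal Set Filter Topology
open scoped ENNReal

noncomputable section

namespace Pool.Agent.Results.MP_814c9d_an.OctahedralNoL1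

universe u v

/-- `X` is `κ`-octahedral: for each `ε > 0` and each subspace `Y` which has a dense subset `D` of
cardinality at most `κ` there is a unit vector `x` with `‖l x + y‖ ≥ (1 - ε) (|l| + ‖y‖)` for all real
`l` and all `y ∈ Y`. -/
def KappaOctahedral (κ : Cardinal.{u}) (X : Type u) [NormedAddCommGroup X] [NormedSpace ℝ X] :
    Prop :=
  ∀ ε : ℝ, 0 < ε → ∀ (Y : Submodule ℝ X) (D : Set X),
    D ⊆ (Y : Set X) → (Y : Set X) ⊆ closure D → #D ≤ κ →
    ∃ x : X, ‖x‖ = 1 ∧ ∀ l : ℝ, ∀ y ∈ Y, (1 - ε) * (|l| + ‖y‖) ≤ ‖l • x + y‖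

/-- `X` contains an isomorphic copy of `ℓ_1(Γ)`: there is a bounded linear map from `ℓ_1(Γ)` to `X`
which is bounded below. -/
def ContainsL1 (Γ : Type v) (X : Type u) [NormedAddCommGroup X] [NormedSpace ℝ X] : Prop :=
  ∃ T : lp (fun _ : Γ => ℝ) 1 →L[ℝ] X, ∃ c : ℝ, 0 < c ∧ ∀ z, c * ‖z‖ ≤ ‖T z‖

/-- The exponent `p_n = 1 + 1 / (n + 1)`. -/
def pr (n : ℕ) : ℝ := 1 + 1 / ((n : ℝ) + 1)

/-- The exponent `p_n` as an extended nonnegative real. -/
def pp (n : ℕ) : ℝ≥0∞ := ENNReal.ofReal (pr n)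

lemma one_lt_pr (n : ℕ) : 1 < pr n := by
  unfold pr
  have : 0 < 1 / ((n : ℝ) + 1) := by positivity
  linarith

lemma pr_le_two (n : ℕ) : pr n ≤ 2 := by
  unfold pr
  have : 1 / ((n : ℝ) + 1) ≤ 1 := by
    rw [div_le_one (by positivity)]
    have : (0 : ℝ) ≤ n := Nat.cast_nonneg n
    linarith
  linarith

lemma pr_pos (n : ℕ) : 0 < pr n := by linarith [one_lt_pr n]

lemma pp_toReal (n : ℕ) : (pp n).toReal = pr n :=
  ENNReal.toReal_ofReal (pr_pos n).le

instance fact_pp (n : ℕ) : Fact (1 ≤ pp n) :=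
  ⟨by
    unfold pp
    rw [← ENNReal.ofReal_one]
    exact ENNReal.ofReal_le_ofReal (one_lt_pr n).le⟩

/-- The space `ℓ_{p_n}(I)`. -/
abbrev E (I : Type u) (n : ℕ) : Type u := lp (fun _ : I => ℝ) (pp n)

/-- The `ℓ_1`-sum over `n` of the spaces `ℓ_{p_n}(I)`. -/
abbrev XX (I : Type u) : Type u := lp (fun n : ℕ => E I n) 1

variable {I : Type u}

lemma toReal_pos (n : ℕ) : 0 < (pp n).toReal := by rw [pp_toReal]; exact pr_pos n

lemma hasSum_E {n : ℕ} (x : E I n) : HasSum (fun i => |x i| ^ pr n) (‖x‖ ^ pr n) := by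
  have h := lp.hasSum_norm (toReal_pos n) x
  rw [pp_toReal] at h
  simpa using h

lemma hasSum_XX (y : XX I) : HasSum (fun n => ‖y n‖) ‖y‖ := by
  have h := lp.hasSum_norm (by simp) y
  simpa using h

/-- the two point inequality for real numbers -/
lemma two_point (p a b : ℝ) (hp1 : 1 < p) (hp2 : p ≤ 2) :
    |a + b| ^ p + |a - b| ^ p ≤ 2 * (|a| ^ p + |b| ^ p) := by
  have hq0 : 0 ≤ p / 2 := by linarith
  have hq1 : p / 2 ≤ 1 := by linarith
  have key : ∀ t : ℝ, |t| ^ p = (t ^ 2) ^ (p / 2) := by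
    intro t
    rw [← sq_abs t, ← Real.rpow_natCast, ← Real.rpow_mul (abs_nonneg t)]
    congr 1
    push_cast
    ring
  rw [key, key, key, key]
  have h1 : (1 / 2 : ℝ) • ((a + b) ^ 2) ^ (p / 2) + (1 / 2 : ℝ) • ((a - b) ^ 2) ^ (p / 2) ≤
      ((1 / 2 : ℝ) • (a + b) ^ 2 + (1 / 2 : ℝ) • (a - b) ^ 2) ^ (p / 2) :=
    (Real.concaveOn_rpow hq0 hq1).2 (mem_Ici.2 (sq_nonneg (a + b)))
      (mem_Ici.2 (sq_nonneg (a - b))) (by norm_num) (by norm_num) (by norm_num)
  simp only [smul_eq_mul] at h1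
  have h2 : (1 / 2 * (a + b) ^ 2 + 1 / 2 * (a - b) ^ 2) = a ^ 2 + b ^ 2 := by ring
  rw [h2] at h1
  have h3 : (a ^ 2 + b ^ 2) ^ (p / 2) ≤ (a ^ 2) ^ (p / 2) + (b ^ 2) ^ (p / 2) := by
    have h := NNReal.rpow_add_le_add_rpow (⟨a ^ 2, sq_nonneg a⟩ : NNReal) ⟨b ^ 2, sq_nonneg b⟩
      hq0 hq1
    exact_mod_cast h
  linarith

lemma two_point_E {n : ℕ} (x y : E I n) :
    ‖x + y‖ ^ pr n + ‖x - y‖ ^ pr n ≤ 2 * (‖x‖ ^ pr n + ‖y‖ ^ pr n) := by
  have h1 := (hasSum_E (x + y)).add (hasSum_E (x - y))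
  have h2 := ((hasSum_E x).add (hasSum_E y)).mul_left 2
  refine hasSum_le (fun i => ?_) h1 h2
  have := two_point (pr n) (x i) (y i) (one_lt_pr n) (pr_le_two n)
  simpa using this

/-- the unit vector `e_α` is `ℓ_p`-orthogonal to the vectors which vanish at `α` -/
lemma norm_single_add {n : ℕ} [DecidableEq I] (α : I) (l : ℝ) (y : E I n) (hy : y α = 0) :
    ‖l • (lp.single (pp n) α (1 : ℝ) : E I n) + y‖ ^ pr n = |l| ^ pr n + ‖y‖ ^ pr n := by
  have h1 := hasSum_E (l • (lp.single (pp n) α (1 : ℝ) : E I n) + y)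
  have h2 : HasSum (fun i => if i = α then |l| ^ pr n else 0) (|l| ^ pr n) :=
    hasSum_ite_eq α _
  have h3 := h2.add (hasSum_E y)
  have h4 : (fun i => |(l • (lp.single (pp n) α (1 : ℝ) : E I n) + y) i| ^ pr n) =
      fun i => (if i = α then |l| ^ pr n else 0) + |y i| ^ pr n := by
    funext i
    rw [lp.coeFn_add, Pi.add_apply, lp.coeFn_smul, Pi.smul_apply]
    by_cases hi : i = α
    · subst hi
      rw [lp.single_apply_self, hy]
      simp [Real.zero_rpow (pr_pos n).ne']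
    · rw [lp.single_apply_ne _ _ _ hi]
      simp [hi]
  rw [h4] at h1
  exact h1.unique h3

lemma norm_single_add_ge {n : ℕ} [DecidableEq I] (α : I) (l : ℝ) (y : E I n) (hy : y α = 0) :
    |l| + ‖y‖ ≤ 2 ^ (pr n - 1) * ‖l • (lp.single (pp n) α (1 : ℝ) : E I n) + y‖ := by
  have h1 := norm_single_add α l y hy
  set N := ‖l • (lp.single (pp n) α (1 : ℝ) : E I n) + y‖ with hN
  have hp := pr_pos n
  have hN0 : 0 ≤ N := norm_nonneg _
  have h2 : (|l| + ‖y‖) ^ pr n ≤ 2 ^ (pr n - 1) * (|l| ^ pr n + ‖y‖ ^ pr n) := by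
    have h := NNReal.rpow_add_le_mul_rpow_add_rpow (⟨|l|, abs_nonneg l⟩ : NNReal)
      ⟨‖y‖, norm_nonneg y⟩ (one_lt_pr n).le
    exact_mod_cast h
  have h3 : (2 : ℝ) ^ (pr n - 1) ≤ ((2 : ℝ) ^ (pr n - 1)) ^ pr n := by
    have h4 : (1 : ℝ) ≤ 2 ^ (pr n - 1) :=
      Real.one_le_rpow (by norm_num) (by linarith [one_lt_pr n])
    calc (2 : ℝ) ^ (pr n - 1) = ((2 : ℝ) ^ (pr n - 1)) ^ (1 : ℝ) := (Real.rpow_one _).symm
      _ ≤ ((2 : ℝ) ^ (pr n - 1)) ^ pr n :=
        Real.rpow_le_rpow_of_exponent_le h4 (one_lt_pr n).le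
  have h5 : (|l| + ‖y‖) ^ pr n ≤ (2 ^ (pr n - 1) * N) ^ pr n := by
    rw [Real.mul_rpow (by positivity) hN0, h1]
    exact h2.trans (mul_le_mul_of_nonneg_right h3 (by positivity))
  exact (Real.rpow_le_rpow_iff (by positivity) (by positivity) hp).1 h5

/-- The unit vector `e_α` of the `n`-th summand. -/
def ee [DecidableEq I] (n : ℕ) (α : I) : XX I := lp.single 1 n (lp.single (pp n) α (1 : ℝ))

lemma norm_ee [DecidableEq I] (n : ℕ) (α : I) : ‖ee n α‖ = 1 := by
  unfold ee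
  rw [lp.norm_single (by norm_num), lp.norm_single (zero_lt_one.trans_le (fact_pp n).out)]
  simp

lemma oct_ineq [DecidableEq I] (n : ℕ) (α : I) (ε : ℝ) (hε0 : 0 ≤ ε) (hε1 : ε ≤ 1)
    (hε : (1 - ε) * 2 ^ (pr n - 1) ≤ 1) (l : ℝ) (y : XX I) (hy : ∀ m, y m α = 0) :
    (1 - ε) * (|l| + ‖y‖) ≤ ‖l • ee n α + y‖ := by
  have h1 : HasSum (fun m => (if m = n then |l| else 0)) |l| := hasSum_ite_eq n _
  have h2 := (h1.add (hasSum_XX y)).mul_left (1 - ε)
  refine hasSum_le (fun m => ?_) h2 (hasSum_XX (l • ee n α + y))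
  rw [lp.coeFn_add, Pi.add_apply, lp.coeFn_smul, Pi.smul_apply]
  by_cases hm : m = n
  · subst hm
    have h3 := norm_single_add_ge α l (y m) (hy m)
    simp only [if_true]
    unfold ee
    rw [lp.single_apply_self]
    set N := ‖l • (lp.single (pp m) α (1 : ℝ) : E I m) + y m‖ with hN
    have hN0 : 0 ≤ N := norm_nonneg _
    calc (1 - ε) * (|l| + ‖y m‖) ≤ (1 - ε) * (2 ^ (pr m - 1) * N) :=
          mul_le_mul_of_nonneg_left h3 (by linarith)
      _ = ((1 - ε) * 2 ^ (pr m - 1)) * N := by ring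
      _ ≤ 1 * N := mul_le_mul_of_nonneg_right hε hN0
      _ = N := one_mul N
  · unfold ee
    rw [lp.single_apply_ne _ _ _ hm]
    simp only [hm, if_false, zero_add, smul_zero]
    have := norm_nonneg (y m)
    nlinarith

/-- a coordinate which vanishes on a set of cardinality at most `κ` -/
lemma exists_coord (κ : Cardinal.{u}) (hκ : ℵ₀ ≤ κ) (hI : κ < #I) (D : Set (XX I)) (hD : #D ≤ κ) :
    ∃ α : I, ∀ y ∈ D, ∀ n, y n α = 0 := by
  let S : XX I → Set I := fun y => {i | ∃ n, y n i ≠ 0}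
  have hS : ∀ y, (S y).Countable := by
    intro y
    have h1 : S y = ⋃ n, {i | y n i ≠ 0} := by
      ext i
      simp [S]
    rw [h1]
    refine countable_iUnion fun n => ?_
    have h2 := (hasSum_E (y n)).summable.countable_support
    refine h2.mono fun i hi => ?_
    simp only [Function.mem_support]
    exact (Real.rpow_pos_of_pos (abs_pos.2 hi) _).ne'
  by_contra hcon
  push Not at hcon
  have h2 : (⋃ y ∈ D, S y) = Set.univ := by
    refine eq_univ_of_forall fun i => ?_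
    obtain ⟨y, hy, n, hn⟩ := hcon i
    exact mem_biUnion hy ⟨n, hn⟩
  have h3 : #I ≤ κ := by
    calc #I = #(Set.univ : Set I) := mk_univ.symm
      _ = #(⋃ y ∈ D, S y : Set I) := by rw [h2]
      _ ≤ #D * ⨆ y : D, #(S y.1) := mk_biUnion_le _ _
      _ ≤ κ * ℵ₀ := by
          refine mul_le_mul' hD ?_
          refine ciSup_le' fun y => ?_
          exact le_aleph0_iff_set_countable.2 (hS y.1)
      _ ≤ κ * κ := mul_le_mul' le_rfl hκ
      _ = κ := mul_eq_self hκ
  exact absurd hI (not_lt.2 h3)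

lemma isClosed_coord (α : I) : IsClosed {y : XX I | ∀ n, y n α = 0} := by
  have h1 : {y : XX I | ∀ n, y n α = 0} = ⋂ n, {y : XX I | y n α = 0} := by
    ext y; simp
  rw [h1]
  refine isClosed_iInter fun n => ?_
  let F : XX I →L[ℝ] ℝ :=
    (lp.evalCLM ℝ (fun _ : I => ℝ) (pp n) α).comp (lp.evalCLM ℝ (fun n : ℕ => E I n) 1 n)
  exact isClosed_eq F.continuous continuous_const

theorem kappaOctahedral (κ : Cardinal.{u}) (hκ : ℵ₀ ≤ κ) (hI : κ < #I) :
    KappaOctahedral κ (XX I) := by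
  classical
  intro ε hε Y D hDY hYD hD
  obtain ⟨α, hα⟩ := exists_coord κ hκ hI D hD
  have hY : ∀ y ∈ Y, ∀ n, y n α = 0 := by
    intro y hy
    have h1 : closure D ⊆ {y : XX I | ∀ n, y n α = 0} :=
      closure_minimal (fun y hy => hα y hy) (isClosed_coord α)
    exact h1 (hYD hy)
  -- the choice of `n`
  set δ := min ε 1 with hδ
  have hδ0 : 0 < δ := lt_min hε one_pos
  have hδ1 : δ ≤ 1 := min_le_right _ _
  have hlim : Tendsto (fun n : ℕ => (1 - δ) * (2 : ℝ) ^ (pr n - 1)) atTop (𝓝 ((1 - δ) * 1)) := by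
    refine Tendsto.const_mul _ ?_
    have h2 : Tendsto (fun n : ℕ => (1 : ℝ) / ((n : ℝ) + 1)) atTop (𝓝 0) :=
      tendsto_one_div_add_atTop_nhds_zero_nat
    have h3 : Tendsto (fun n : ℕ => (2 : ℝ) ^ ((1 : ℝ) / ((n : ℝ) + 1))) atTop (𝓝 (2 ^ (0 : ℝ))) :=
      tendsto_const_nhds.rpow h2 (Or.inl (by norm_num))
    rw [Real.rpow_zero] at h3
    refine h3.congr fun n => ?_
    unfold pr
    congr 1
    ring
  have hev := hlim.eventually (gt_mem_nhds (show (1 - δ) * 1 < 1 by linarith))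
  obtain ⟨n, hn⟩ := hev.exists
  refine ⟨ee n α, norm_ee n α, fun l y hy => ?_⟩
  have h4 := oct_ineq n α δ hδ0.le hδ1 hn.le l y (hY y hy)
  refine le_trans (mul_le_mul_of_nonneg_right ?_ (by positivity)) h4
  have := min_le_left ε 1
  linarith

/-! ### No copy of `ℓ_1(Γ)` -/

/-- choice of signs -/
lemma exists_signs {Γ : Type v} {V : Type u} [AddCommGroup V] [Module ℝ V] (Φ : V → ℝ)
    (h0 : Φ 0 ≤ 0) (hΦ : ∀ x y, Φ (x + y) + Φ (x - y) ≤ 2 * (Φ x + Φ y)) (x : Γ → V)
    (F : Finset Γ) :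
    ∃ s : Γ → ℝ, (∀ i, |s i| = 1) ∧ Φ (∑ i ∈ F, s i • x i) ≤ ∑ i ∈ F, Φ (x i) := by
  classical
  induction F using Finset.induction_on with
  | empty => exact ⟨fun _ => 1, by simp, by simpa using h0⟩
  | insert a F ha ih =>
    obtain ⟨s, hs, hs2⟩ := ih
    have h1 := hΦ (∑ i ∈ F, s i • x i) (x a)
    have h2 : ∃ t : ℝ, |t| = 1 ∧ Φ (∑ i ∈ F, s i • x i + t • x a) ≤
        Φ (∑ i ∈ F, s i • x i) + Φ (x a) := by
      by_cases h : Φ (∑ i ∈ F, s i • x i + x a) ≤ Φ (∑ i ∈ F, s i • x i) + Φ (x a)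
      · exact ⟨1, by simp, by simpa using h⟩
      · refine ⟨-1, by simp, ?_⟩
        push Not at h
        have h3 : ∑ i ∈ F, s i • x i + (-1 : ℝ) • x a = ∑ i ∈ F, s i • x i - x a := by
          rw [neg_one_smul, sub_eq_add_neg]
        rw [h3]
        linarith
    obtain ⟨t, ht, ht2⟩ := h2
    refine ⟨Function.update s a t, fun i => ?_, ?_⟩
    · by_cases hi : i = a
      · subst hi; simpa using ht
      · simpa [hi] using hs i
    · rw [Finset.sum_insert ha, Finset.sum_insert ha]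
      have h4 : ∑ i ∈ F, Function.update s a t i • x i = ∑ i ∈ F, s i • x i := by
        refine Finset.sum_congr rfl fun i hi => ?_
        have : i ≠ a := fun h => ha (h ▸ hi)
        simp [this]
      rw [h4, Function.update_self, add_comm (t • x a)]
      linarith

lemma norm_le_thresh (p t δ : ℝ) (hp : 1 < p) (ht : 0 ≤ t) (hδ : 0 < δ) :
    t ≤ δ + δ ^ (1 - p) * t ^ p := by
  by_cases h : t ≤ δ
  · have : 0 ≤ δ ^ (1 - p) * t ^ p := by positivity
    linarith
  · push Not at h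
    have ht0 : 0 < t := hδ.trans h
    have h1 : t ^ (1 - p) ≤ δ ^ (1 - p) := Real.rpow_le_rpow_of_nonpos hδ h.le (by linarith)
    have h2 : t ^ (1 - p) * t ^ p = t := by
      rw [← Real.rpow_add ht0]
      simp
    have h3 : t ^ (1 - p) * t ^ p ≤ δ ^ (1 - p) * t ^ p :=
      mul_le_mul_of_nonneg_right h1 (by positivity)
    linarith

theorem not_containsL1 (Γ : Type v) [Uncountable Γ] : ¬ ContainsL1 Γ (XX I) := by
  classical
  rintro ⟨T, c, hc, hT⟩
  set x : Γ → XX I := fun γ => T (lp.single 1 γ (1 : ℝ)) with hx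
  set M := ‖T‖ with hM
  have hM0 : 0 ≤ M := norm_nonneg _
  have hxM : ∀ γ, ‖x γ‖ ≤ M := by
    intro γ
    have h1 := T.le_opNorm (lp.single 1 γ (1 : ℝ))
    rw [lp.norm_single (by norm_num)] at h1
    simpa using h1
  -- the tails
  have htail : ∀ γ, ∃ N : ℕ, ‖x γ‖ - ∑ m ∈ Finset.range N, ‖x γ m‖ ≤ c / 2 := by
    intro γ
    have h1 := (hasSum_XX (x γ)).tendsto_sum_nat
    have h2 : Tendsto (fun N => ‖x γ‖ - ∑ m ∈ Finset.range N, ‖x γ m‖) atTop (𝓝 (‖x γ‖ - ‖x γ‖)) :=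
      tendsto_const_nhds.sub h1
    rw [sub_self] at h2
    obtain ⟨N, hN⟩ := (h2.eventually (gt_mem_nhds (show (0 : ℝ) < c / 2 by linarith))).exists
    exact ⟨N, hN.le⟩
  choose ν hν using htail
  obtain ⟨N, hN⟩ : ∃ N, ¬ (ν ⁻¹' {N}).Countable := by
    by_contra hcon
    push Not at hcon
    have h1 : (⋃ N, ν ⁻¹' {N}).Countable := countable_iUnion hcon
    have h2 : (⋃ N, ν ⁻¹' {N}) = Set.univ := by
      refine eq_univ_of_forall fun γ => ?_
      exact mem_iUnion.2 ⟨ν γ, rfl⟩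
    rw [h2] at h1
    exact not_countable (α := Γ) (countable_univ_iff.1 h1)
  have hinf : (ν ⁻¹' {N}).Infinite := fun hfin => hN hfin.countable
  -- the main inequality
  have key : ∀ (n : ℕ) (δ : ℝ), 0 < δ → 0 < n →
      c / 2 * n ≤ N * δ + n * ∑ m ∈ Finset.range N, δ ^ (1 - pr m) * M ^ pr m := by
    intro n δ hδ hn
    obtain ⟨F, hF, hFn⟩ := hinf.exists_subset_card_eq n
    let Φ : XX I → ℝ := fun z => ∑ m ∈ Finset.range N, δ ^ (1 - pr m) * ‖z m‖ ^ pr m
    have hΦ0 : Φ 0 ≤ 0 := by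
      refine (Finset.sum_eq_zero fun m _ => ?_).le
      simp [Real.zero_rpow (pr_pos m).ne']
    have hΦ : ∀ x y, Φ (x + y) + Φ (x - y) ≤ 2 * (Φ x + Φ y) := by
      intro x y
      simp only [Φ]
      rw [← Finset.sum_add_distrib, ← Finset.sum_add_distrib, Finset.mul_sum]
      refine Finset.sum_le_sum fun m _ => ?_
      have h1 := two_point_E (x m) (y m)
      have h2 : 0 ≤ δ ^ (1 - pr m) := by positivity
      rw [lp.coeFn_add, lp.coeFn_sub, Pi.add_apply, Pi.sub_apply]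
      nlinarith
    obtain ⟨s, hs, hs2⟩ := exists_signs Φ hΦ0 hΦ x F
    -- the upper bound for `Φ`
    have h3 : ∑ i ∈ F, Φ (x i) ≤ n * ∑ m ∈ Finset.range N, δ ^ (1 - pr m) * M ^ pr m := by
      rw [← hFn, ← nsmul_eq_mul]
      refine Finset.sum_le_card_nsmul _ _ _ fun i _ => ?_
      refine Finset.sum_le_sum fun m _ => ?_
      refine mul_le_mul_of_nonneg_left ?_ (by positivity)
      refine Real.rpow_le_rpow (norm_nonneg _) ?_ (pr_pos m).le
      exact (lp.norm_apply_le_norm (by norm_num) (x i) m).trans (hxM i)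
    -- the vector
    set z : lp (fun _ : Γ => ℝ) 1 := ∑ i ∈ F, lp.single 1 i (s i) with hz
    have hzn : ‖z‖ = n := by
      have h4 := lp.norm_sum_single (p := 1) (by simp) s F
      simp only [ENNReal.toReal_one, Real.rpow_one] at h4
      rw [hz, h4, ← hFn]
      simp [Real.norm_eq_abs, hs]
    have hTz : T z = ∑ i ∈ F, s i • x i := by
      rw [hz, map_sum]
      refine Finset.sum_congr rfl fun i _ => ?_
      rw [hx, ← map_smul, ← lp.single_smul]
      simp
    have h5 := hT z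
    rw [hzn, hTz] at h5
    set w := ∑ i ∈ F, s i • x i with hw
    -- the tail of `w`
    have htailw : ‖w‖ - ∑ m ∈ Finset.range N, ‖w m‖ ≤ n * (c / 2) := by
      have h6 : HasSum (fun m => ‖w (m + N)‖) (‖w‖ - ∑ m ∈ Finset.range N, ‖w m‖) := by
        have := (hasSum_nat_add_iff' N).2 (hasSum_XX w)
        simpa using this
      have h7 : ∀ i, HasSum (fun m => ‖x i (m + N)‖)
          (‖x i‖ - ∑ m ∈ Finset.range N, ‖x i m‖) := by
        intro i
        have := (hasSum_nat_add_iff' N).2 (hasSum_XX (x i))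
        simpa using this
      have h8 := hasSum_sum (s := F) fun i _ => h7 i
      have h9 : ‖w‖ - ∑ m ∈ Finset.range N, ‖w m‖ ≤
          ∑ i ∈ F, (‖x i‖ - ∑ m ∈ Finset.range N, ‖x i m‖) := by
        refine hasSum_le (fun m => ?_) h6 h8
        have h10 : w (m + N) = ∑ i ∈ F, s i • x i (m + N) := by
          rw [hw, lp.coeFn_sum, Finset.sum_apply]
          rfl
        rw [h10]
        refine (norm_sum_le _ _).trans (Finset.sum_le_sum fun i _ => ?_)
        rw [norm_smul, Real.norm_eq_abs, hs i, one_mul]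
      refine h9.trans ?_
      rw [← hFn, ← nsmul_eq_mul]
      refine Finset.sum_le_card_nsmul _ _ _ fun i hi => ?_
      have h11 : ν i = N := hF hi
      rw [← h11]
      exact hν i
    -- the head of `w`
    have hhead : ∑ m ∈ Finset.range N, ‖w m‖ ≤ N * δ + Φ w := by
      have h12 : ∑ m ∈ Finset.range N, ‖w m‖ ≤
          ∑ m ∈ Finset.range N, (δ + δ ^ (1 - pr m) * ‖w m‖ ^ pr m) :=
        Finset.sum_le_sum fun m _ => norm_le_thresh _ _ _ (one_lt_pr m) (norm_nonneg _) hδ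
      rw [Finset.sum_add_distrib] at h12
      simpa using h12
    have h13 : Φ w ≤ n * ∑ m ∈ Finset.range N, δ ^ (1 - pr m) * M ^ pr m := hs2.trans h3
    nlinarith
  -- letting `n` tend to infinity with `δ = n η`
  set η : ℝ := c / (4 * (N + 1)) with hη
  have hη0 : 0 < η := by positivity
  have key2 : ∀ n : ℕ, 0 < n →
      c / 2 ≤ N * η + ∑ m ∈ Finset.range N, (n * η) ^ (1 - pr m) * M ^ pr m := by
    intro n hn
    have hn0 : (0 : ℝ) < n := by exact_mod_cast hn
    have h1 := key n (n * η) (by positivity) hn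
    have h2 : c / 2 * n ≤
        (N * η + ∑ m ∈ Finset.range N, (n * η) ^ (1 - pr m) * M ^ pr m) * n := by
      calc c / 2 * n ≤ N * (n * η) + n * ∑ m ∈ Finset.range N, (n * η) ^ (1 - pr m) * M ^ pr m := h1
        _ = _ := by ring
    exact le_of_mul_le_mul_right h2 hn0
  have hlim : Tendsto (fun n : ℕ => N * η + ∑ m ∈ Finset.range N,
      ((n : ℝ) * η) ^ (1 - pr m) * M ^ pr m) atTop
      (𝓝 (N * η + ∑ m ∈ Finset.range N, 0 * M ^ pr m)) := by
    refine tendsto_const_nhds.add (tendsto_finsetSum _ fun m _ => ?_)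
    refine Tendsto.mul_const _ ?_
    have h1 : Tendsto (fun n : ℕ => (n : ℝ) * η) atTop atTop :=
      tendsto_natCast_atTop_atTop.atTop_mul_const hη0
    have h2 := (tendsto_rpow_neg_atTop (y := pr m - 1) (by linarith [one_lt_pr m])).comp h1
    refine h2.congr fun n => ?_
    simp only [Function.comp_apply]
    congr 1
    ring
  simp only [zero_mul, Finset.sum_const_zero, add_zero] at hlim
  have h2 : c / 2 ≤ N * η := by
    refine ge_of_tendsto hlim ?_
    filter_upwards [eventually_gt_atTop 0] with n hn using key2 n hn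
  have h3 : N * η < c / 2 := by
    rw [hη]
    have h4 : (0 : ℝ) ≤ N := Nat.cast_nonneg N
    rw [mul_div_assoc', div_lt_div_iff₀ (by positivity) (by norm_num)]
    nlinarith
  linarith

/-- **For every infinite cardinal `κ` there is a `κ`-octahedral Banach space which has no subspace
isomorphic to `ℓ_1(κ⁺)`**, and indeed no subspace isomorphic to `ℓ_1(Γ)` for any uncountable `Γ`. -/
theorem result (κ : Cardinal.{u}) (hκ : ℵ₀ ≤ κ) :
    ∃ (X : Type u) (_ : NormedAddCommGroup X) (_ : NormedSpace ℝ X),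
      CompleteSpace X ∧ KappaOctahedral κ X ∧ ¬ ContainsL1 (Order.succ κ).out X ∧
      ∀ Γ : Type u, Uncountable Γ → ¬ ContainsL1 Γ X := by
  have hI : κ < #(Order.succ κ).out := by
    rw [mk_out]
    exact Order.lt_succ κ
  have : Uncountable (Order.succ κ).out := by
    rw [← aleph0_lt_mk_iff]
    exact hκ.trans_lt hI
  exact ⟨XX (Order.succ κ).out, inferInstance, inferInstance, inferInstance,
    kappaOctahedral κ hκ hI, not_containsL1 _, fun Γ _ => not_containsL1 Γ⟩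

end Pool.Agent.Results.MP_814c9d_an.OctahedralNoL1
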